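import Mathlib
import Pool.Agent.H892.KT.Stm

/-!
# Composition of rational germs (`S_RATCOMP`)
-/

set_option autoImplicit false

open Filter Topology Set

namespace Pool.Agent.H331.KT

open Pool.Agent.H892.KT

theorem ev_mul (P Q : MvPolynomial (Fin 2) ℂ) (p : ℂ × ℂ) : ev (P * Q) p = ev P p * ev Q p := by
  simp only [ev, map_mul]

theorem ev_add (P Q : MvPolynomial (Fin 2) ℂ) (p : ℂ × ℂ) : ev (P + Q) p = ev P p + ev Q p := by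
  simp only [ev, map_add]

theorem ev_pow (P : MvPolynomial (Fin 2) ℂ) (n : ℕ) (p : ℂ × ℂ) : ev (P ^ n) p = ev P p ^ n := by
  simp only [ev, map_pow]

theorem ev_C (a : ℂ) (p : ℂ × ℂ) : ev (MvPolynomial.C a) p = a := by
  simp only [ev, MvPolynomial.eval_C]

theorem ev_X0 (p : ℂ × ℂ) : ev (MvPolynomial.X 0) p = p.1 := by
  simp [ev]

theorem ev_X1 (p : ℂ × ℂ) : ev (MvPolynomial.X 1) p = p.2 := by
  simp [ev]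

theorem ev_zero (p : ℂ × ℂ) : ev 0 p = 0 := by
  simp only [ev, map_zero]

/-- substitution of rational functions in a polynomial -/
theorem subs_rat (P₁ Q₁ P₂ Q₂ R : MvPolynomial (Fin 2) ℂ) : ∃ m : ℕ, ∀ m' : ℕ, m ≤ m' →
    ∃ R' : MvPolynomial (Fin 2) ℂ, ∀ q z : ℂ × ℂ, ev Q₁ q * z.1 = ev P₁ q → ev Q₂ q * z.2 = ev P₂ q →
      ev R' q = ev (Q₁ * Q₂) q ^ m' * ev R z := by
  induction R using MvPolynomial.induction_on with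
  | C a =>
    refine ⟨0, fun m' _ => ⟨(Q₁ * Q₂) ^ m' * MvPolynomial.C a, fun q z _ _ => ?_⟩⟩
    rw [ev_mul, ev_pow, ev_C, ev_C]
  | add R S hR hS =>
    obtain ⟨m, hm⟩ := hR
    obtain ⟨n, hn⟩ := hS
    refine ⟨max m n, fun m' hm' => ?_⟩
    obtain ⟨R', hR'⟩ := hm m' ((le_max_left m n).trans hm')
    obtain ⟨S', hS'⟩ := hn m' ((le_max_right m n).trans hm')
    refine ⟨R' + S', fun q z h1 h2 => ?_⟩
    rw [ev_add, ev_add, hR' q z h1 h2, hS' q z h1 h2]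
    ring
  | mul_X R i hR =>
    obtain ⟨m, hm⟩ := hR
    refine ⟨m + 1, fun m' hm' => ?_⟩
    obtain ⟨k, rfl⟩ : ∃ k, m' = k + 1 := ⟨m' - 1, by omega⟩
    obtain ⟨R', hR'⟩ := hm k (by omega)
    fin_cases i
    · refine ⟨R' * (P₁ * Q₂), fun q z h1 h2 => ?_⟩
      show ev (R' * (P₁ * Q₂)) q = ev (Q₁ * Q₂) q ^ (k + 1) * ev (R * MvPolynomial.X 0) z
      rw [ev_mul, ev_mul P₁, hR' q z h1 h2, ev_mul R, ev_X0, ← h1, ev_mul Q₁]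
      ring
    · refine ⟨R' * (Q₁ * P₂), fun q z h1 h2 => ?_⟩
      show ev (R' * (Q₁ * P₂)) q = ev (Q₁ * Q₂) q ^ (k + 1) * ev (R * MvPolynomial.X 1) z
      rw [ev_mul, ev_mul Q₁, hR' q z h1 h2, ev_mul R, ev_X1, ← h2, ev_mul Q₁]
      ring

/-- one coordinate -/
theorem one_coord (h1 : S_UNIQ) (e : OpenPartialHomeomorph (ℂ × ℂ) (ℂ × ℂ)) (p : ℂ × ℂ)
    (t : ℂ × ℂ → ℂ) (hp : p ∈ e.source) (P₁ Q₁ P₂ Q₂ R S : MvPolynomial (Fin 2) ℂ) (hQ₁ : Q₁ ≠ 0)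
    (hQ₂ : Q₂ ≠ 0) (he : ∀ᶠ q in 𝓝 p, ev Q₁ q * (e q).1 = ev P₁ q ∧ ev Q₂ q * (e q).2 = ev P₂ q)
    (hS : S ≠ 0) (ht : ∀ᶠ z in 𝓝 (e p), ev S z * t z = ev R z) :
    ∃ R' S' : MvPolynomial (Fin 2) ℂ, S' ≠ 0 ∧ ∀ᶠ q in 𝓝 p, ev S' q * t (e q) = ev R' q := by
  obtain ⟨m, hm⟩ := subs_rat P₁ Q₁ P₂ Q₂ R
  obtain ⟨n, hn⟩ := subs_rat P₁ Q₁ P₂ Q₂ S
  obtain ⟨R', hR'⟩ := hm (max m n) (le_max_left m n)
  obtain ⟨S', hS'⟩ := hn (max m n) (le_max_right m n)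
  have ht' : ∀ᶠ q in 𝓝 p, ev S (e q) * t (e q) = ev R (e q) := (e.continuousAt hp).eventually ht
  refine ⟨R', S', ?_, ?_⟩
  · rintro rfl
    obtain ⟨W, hW, hWo, hpW⟩ := eventually_nhds_iff.1 (he.and (e.open_source.mem_nhds hp))
    have hQ : Q₁ * Q₂ ≠ 0 := mul_ne_zero hQ₁ hQ₂
    obtain ⟨q₀, hq₀W, hq₀⟩ := (h1.2.2 (Q₁ * Q₂) hQ).inter_open_nonempty W hWo ⟨p, hpW⟩
    have hopen : IsOpen (W ∩ {q | ev (Q₁ * Q₂) q ≠ 0}) :=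
      hWo.inter (isOpen_ne.preimage (h1.2.1 (Q₁ * Q₂)))
    have himg : IsOpen (e '' (W ∩ {q | ev (Q₁ * Q₂) q ≠ 0})) :=
      e.isOpen_image_of_subset_source hopen (fun q hq => (hW q hq.1).2)
    apply hS
    refine h1.1 S (e q₀) ?_
    filter_upwards [himg.mem_nhds ⟨q₀, ⟨hq₀W, hq₀⟩, rfl⟩] with z hz
    obtain ⟨q, ⟨hqW, hq⟩, rfl⟩ := hz
    have h2 := hS' q (e q) (hW q hqW).1.1 (hW q hqW).1.2
    rw [ev_zero] at h2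
    rcases mul_eq_zero.1 h2.symm with h3 | h3
    · exact absurd h3 (pow_ne_zero _ hq)
    · exact h3
  · filter_upwards [he, ht'] with q hq hq'
    rw [hR' q (e q) hq.1 hq.2, hS' q (e q) hq.1 hq.2, ← hq']
    ring

theorem t_RATCOMP (h1 : S_UNIQ) : S_RATCOMP := by
  rintro e p τ hp ⟨P₁, Q₁, P₂, Q₂, hQ₁, hQ₂, he⟩ ⟨R₁, S₁, R₂, S₂, hS₁, hS₂, hτ⟩
  obtain ⟨R₁', S₁', hS₁', h3⟩ := one_coord h1 e p (fun z => (τ z).1) hp P₁ Q₁ P₂ Q₂ R₁ S₁ hQ₁ hQ₂ he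
    hS₁ (hτ.mono fun z hz => hz.1)
  obtain ⟨R₂', S₂', hS₂', h4⟩ := one_coord h1 e p (fun z => (τ z).2) hp P₁ Q₁ P₂ Q₂ R₂ S₂ hQ₁ hQ₂ he
    hS₂ (hτ.mono fun z hz => hz.2)
  exact ⟨R₁', S₁', R₂', S₂', hS₁', hS₂', h3.and h4⟩

end Pool.Agent.H331.KT
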